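import Pool.Agent.Helper21.EM.Stmts
import Pool.Agent.Helper14.MT.So

/-!
# EM, GNT: ideals which contain the elements of degree different from zero
-/

set_option autoImplicit false

open Matrix MT

namespace EM.Gnt

open MT.Psr MT.Smp

variable {K : Type} [Field K] {r : ℕ}

/-- the columns of a frame -/
def pcol (P : Matrix.GeneralLinearGroup (Fin r) K) (j : Fin r) : Fin r → K :=
  (P : Matrix (Fin r) (Fin r) K) *ᵥ Pi.single j 1

theorem inv_mul_self (P : Matrix.GeneralLinearGroup (Fin r) K) :
    ((P⁻¹ : Matrix.GeneralLinearGroup (Fin r) K) : Matrix (Fin r) (Fin r) K) *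
      (P : Matrix (Fin r) (Fin r) K) = 1 := by
  rw [← Units.val_mul, inv_mul_cancel, Units.val_one]

theorem mul_inv_self' (P : Matrix.GeneralLinearGroup (Fin r) K) :
    (P : Matrix (Fin r) (Fin r) K) *
      ((P⁻¹ : Matrix.GeneralLinearGroup (Fin r) K) : Matrix (Fin r) (Fin r) K) = 1 := by
  rw [← Units.val_mul, mul_inv_cancel, Units.val_one]

theorem dg_col (P : Matrix.GeneralLinearGroup (Fin r) K) (s : Fin r → ℤ) (j : Fin r) :
    dg P s *ᵥ pcol P j = (s j : K) • pcol P j := by
  unfold dg pcol
  rw [mulVec_mulVec, Matrix.mul_assoc, Matrix.mul_assoc, inv_mul_self, Matrix.mul_one,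
    ← mulVec_mulVec, ← mulVec_smul]
  congr 1
  ext i
  rw [mulVec_diagonal, Pi.smul_apply, smul_eq_mul]
  by_cases h : i = j
  · rw [h]
  · rw [Pi.single_eq_of_ne h, mul_zero, mul_zero]

theorem col_span (P : Matrix.GeneralLinearGroup (Fin r) K) (W : Submodule K (Fin r → K))
    (h : ∀ j, pcol P j ∈ W) (v : Fin r → K) : v ∈ W := by
  have h1 : v = ∑ j, ((((P⁻¹ : Matrix.GeneralLinearGroup (Fin r) K) :
      Matrix (Fin r) (Fin r) K) *ᵥ v) j) • pcol P j := by
    have h2 : v = (P : Matrix (Fin r) (Fin r) K) *ᵥ
        ((((P⁻¹ : Matrix.GeneralLinearGroup (Fin r) K) : Matrix (Fin r) (Fin r) K) *ᵥ v)) := by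
      rw [mulVec_mulVec, mul_inv_self', one_mulVec]
    conv_lhs => rw [h2]
    set u := (((P⁻¹ : Matrix.GeneralLinearGroup (Fin r) K) : Matrix (Fin r) (Fin r) K) *ᵥ v)
    have h3 : u = ∑ j, u j • (Pi.single j (1 : K) : Fin r → K) := by
      ext i
      rw [Finset.sum_apply, Finset.sum_eq_single i]
      · rw [Pi.smul_apply, Pi.single_eq_same, smul_eq_mul, mul_one]
      · intro j _ hj
        rw [Pi.smul_apply, Pi.single_eq_of_ne (Ne.symm hj), smul_zero]
      · intro h; exact absurd (Finset.mem_univ _) h
    conv_lhs => rw [h3]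
    rw [mulVec_sum]
    refine Finset.sum_congr rfl fun j _ => ?_
    rw [mulVec_smul]
    rfl
  rw [h1]
  exact Submodule.sum_mem _ fun j _ => W.smul_mem _ (h j)

theorem col_ne (P : Matrix.GeneralLinearGroup (Fin r) K) (j : Fin r) : pcol P j ≠ 0 := by
  intro h
  have h1 : ((P⁻¹ : Matrix.GeneralLinearGroup (Fin r) K) : Matrix (Fin r) (Fin r) K) *ᵥ
      pcol P j = Pi.single j 1 := by
    unfold pcol
    rw [mulVec_mulVec, inv_mul_self, one_mulVec]
  rw [h, mulVec_zero] at h1
  have h2 := congrFun h1 j
  rw [Pi.single_eq_same] at h2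
  exact zero_ne_one h2

theorem WW_smul_left {psi : Matrix (Fin r) (Fin r) K} (c : K) (v u : Fin r → K) :
    WW psi (c • v) u = c • WW psi v u := by
  rw [WW_swap, WW_smul, WW_swap v u, smul_neg, neg_neg]

theorem WW_add_left {psi : Matrix (Fin r) (Fin r) K} (v w u : Fin r → K) :
    WW psi (v + w) u = WW psi v u + WW psi w u := by
  rw [WW_swap, WW_add, WW_swap v u, WW_swap w u, neg_add, neg_neg, neg_neg]

theorem horth [CharZero K] {psi : Matrix (Fin r) (Fin r) K}
    {P : Matrix.GeneralLinearGroup (Fin r) K} {s : Fin r → ℤ}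
    (hT : (dg P s).transpose * psi + psi * dg P s = 0) (i j : Fin r)
    (h : pf psi (pcol P i) (pcol P j) ≠ 0) : s i + s j = 0 := by
  have h1 := pf_sp hT (pcol P i) (pcol P j)
  rw [dg_col, dg_col, pf_smul_left, pf_smul_right] at h1
  have h2 : ((s i : K) + (s j : K)) * pf psi (pcol P i) (pcol P j) = 0 := by
    linear_combination h1
  have h3 := (mul_eq_zero.mp h2).resolve_right h
  exact_mod_cast h3

theorem hpair {psi : Matrix (Fin r) (Fin r) K} (hu : IsUnit psi)
    (P : Matrix.GeneralLinearGroup (Fin r) K) (i : Fin r) :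
    ∃ j, pf psi (pcol P i) (pcol P j) ≠ 0 := by
  by_contra h
  push Not at h
  refine col_ne P i (pf_nondeg hu ?_)
  intro y
  let W : Submodule K (Fin r → K) :=
    { carrier := {y | pf psi (pcol P i) y = 0}
      zero_mem' := pf_zero_right psi _
      add_mem' := by
        intro a b ha hb
        have ha' : pf psi (pcol P i) a = 0 := ha
        have hb' : pf psi (pcol P i) b = 0 := hb
        show pf psi (pcol P i) (a + b) = 0
        rw [pf_add_right, ha', hb', add_zero]
      smul_mem' := by
        intro c a ha
        have ha' : pf psi (pcol P i) a = 0 := ha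
        show pf psi (pcol P i) (c • a) = 0
        rw [pf_smul_right, ha', mul_zero] }
  exact col_span P W (fun j => h j) y

/-- if all the `WW` of the columns are in `I` then all of them -/
theorem WW_all {psi : Matrix (Fin r) (Fin r) K} (P : Matrix.GeneralLinearGroup (Fin r) K)
    (I : Submodule K (Matrix (Fin r) (Fin r) K))
    (h : ∀ i j, WW psi (pcol P i) (pcol P j) ∈ I) (u v : Fin r → K) : WW psi u v ∈ I := by
  have h1 : ∀ i, WW psi (pcol P i) v ∈ I := by
    intro i
    let W : Submodule K (Fin r → K) :=
      { carrier := {y | WW psi (pcol P i) y ∈ I}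
        zero_mem' := by
          show WW psi (pcol P i) 0 ∈ I
          have := WW_smul (psi := psi) (0 : K) (pcol P i) 0
          rw [zero_smul, zero_smul] at this
          rw [this]
          exact I.zero_mem
        add_mem' := by
          intro a b ha hb
          show WW psi (pcol P i) (a + b) ∈ I
          rw [WW_add]
          exact I.add_mem ha hb
        smul_mem' := by
          intro c a ha
          show WW psi (pcol P i) (c • a) ∈ I
          rw [WW_smul]
          exact I.smul_mem c ha }
    exact col_span P W (fun j => h i j) v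
  let W : Submodule K (Fin r → K) :=
    { carrier := {y | WW psi y v ∈ I}
      zero_mem' := by
        show WW psi 0 v ∈ I
        have := WW_smul_left (psi := psi) (0 : K) 0 v
        rw [zero_smul, zero_smul] at this
        rw [this]
        exact I.zero_mem
      add_mem' := by
        intro a b ha hb
        show WW psi (a + b) v ∈ I
        rw [WW_add_left]
        exact I.add_mem ha hb
      smul_mem' := by
        intro c a ha
        show WW psi (c • a) v ∈ I
        rw [WW_smul_left]
        exact I.smul_mem c ha }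
  exact col_span P W h1 u

end EM.Gnt

namespace EM

open MT.Psr MT.Smp EM.Gnt

theorem st_GNT : ST_GNT := by
  intro K _ _ _ r w ψ P s i₀ j₀ I hdet hsym hr hi hj h0 hT hI hid hTI A hA
  have hu : IsUnit ψ := (Matrix.isUnit_iff_isUnit_det ψ).mpr (isUnit_iff_ne_zero.mpr hdet)
  rcases Nat.even_or_odd w with he | ho
  · have hpsi : ψ.transpose = ψ := by rw [hsym, he.neg_one_pow, one_smul]
    have h3 : 3 ≤ r := hr.resolve_left (Nat.not_odd_iff_even.mpr he)
    have hcase : ∀ i, i = i₀ ∨ i = j₀ ∨ s i = 0 := by
      intro i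
      by_cases h1 : i = i₀
      · exact Or.inl h1
      · by_cases h2 : i = j₀
        · exact Or.inr (Or.inl h2)
        · exact Or.inr (Or.inr (h0 i h1 h2))
    have hiso : ∀ a b, WW ψ a b ∈ Grs.isoS ψ := fun a b => iso_WW hpsi a b
    -- degree different from zero
    have hdeg : ∀ i j, s i + s j ≠ 0 → WW ψ (pcol P i) (pcol P j) ∈ I := by
      intro i j hij
      have h1 := hTI _ (hiso (pcol P i) (pcol P j))
      rw [bracket_WW hT, dg_col, dg_col, WW_smul_left, WW_smul, ← add_smul] at h1
      have h2 : ((s i : K) + (s j : K)) ≠ 0 := by exact_mod_cast hij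
      exact (Submodule.smul_mem_iff _ h2).mp h1
    -- the pairing of the two isotropic columns
    set c : K := pf ψ (pcol P i₀) (pcol P j₀) with hc
    have hc0 : c ≠ 0 := by
      obtain ⟨l, hl⟩ := hpair hu P i₀
      have h1 := horth hT i₀ l hl
      have h2 : l = j₀ := by
        rcases hcase l with h | h | h
        · rw [h, hi] at h1; omega
        · exact h
        · rw [h, hi] at h1; omega
      rw [h2] at hl
      exact hl
    have hkl : ∀ k l, s k = 0 → s l = 0 →
        c • WW ψ (pcol P l) (pcol P k) - pf ψ (pcol P k) (pcol P l) • WW ψ (pcol P i₀) (pcol P j₀)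
          ∈ I := by
      intro k l hk hl
      have h1 := hid _ (hdeg i₀ k (by rw [hi, hk]; norm_num)) _ (hiso (pcol P j₀) (pcol P l))
      rw [bracket_WW (iso_WW hpsi (pcol P j₀) (pcol P l))] at h1
      have h2 : pf ψ (pcol P i₀) (pcol P l) = 0 := by
        by_contra h
        have := horth hT _ _ h
        rw [hi, hl] at this
        omega
      have h4 : pf ψ (pcol P k) (pcol P j₀) = 0 := by
        by_contra h
        have := horth hT _ _ h
        rw [hk, hj] at this
        omega
      rw [WW_mulVec, WW_mulVec, h2, h4, zero_smul, zero_smul, sub_zero, zero_sub,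
        ← neg_smul, WW_smul, WW_smul_left, neg_smul, ← sub_eq_add_neg] at h1
      exact h1
    -- a middle column
    have hk : ∃ k, k ≠ i₀ ∧ k ≠ j₀ := by
      by_contra h
      push Not at h
      have h5 : (Finset.univ : Finset (Fin r)) ⊆ {i₀, j₀} := by
        intro k _
        by_cases hk : k = i₀
        · rw [hk]; exact Finset.mem_insert_self _ _
        · rw [h k hk]
          exact Finset.mem_insert_of_mem (Finset.mem_singleton_self _)
      have h6 := Finset.card_le_card h5
      have h7 : ({i₀, j₀} : Finset (Fin r)).card ≤ 2 := Finset.card_le_two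
      rw [Finset.card_univ, Fintype.card_fin] at h6
      omega
    obtain ⟨k, hk1, hk2⟩ := hk
    have hks := h0 k hk1 hk2
    obtain ⟨l, hl⟩ := hpair hu P k
    have hls : s l = 0 := by
      have := horth hT _ _ hl
      rw [hks] at this
      omega
    have hxy : WW ψ (pcol P i₀) (pcol P j₀) ∈ I := by
      have h5 := I.add_mem (hkl k l hks hls) (hkl l k hls hks)
      rw [pf_symm hpsi (pcol P l) (pcol P k), WW_swap (pcol P k) (pcol P l), smul_neg] at h5
      have h6 : -(c • WW ψ (pcol P k) (pcol P l)) -
          pf ψ (pcol P k) (pcol P l) • WW ψ (pcol P i₀) (pcol P j₀) +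
          (c • WW ψ (pcol P k) (pcol P l) -
            pf ψ (pcol P k) (pcol P l) • WW ψ (pcol P i₀) (pcol P j₀)) =
          (-(2 * pf ψ (pcol P k) (pcol P l))) • WW ψ (pcol P i₀) (pcol P j₀) := by
        rw [neg_smul, mul_smul, two_smul]
        abel
      rw [h6] at h5
      refine (Submodule.smul_mem_iff _ ?_).mp h5
      exact neg_ne_zero.mpr (mul_ne_zero two_ne_zero hl)
    have hall : ∀ i j, WW ψ (pcol P i) (pcol P j) ∈ I := by
      intro i j
      by_cases hij : s i + s j = 0
      · rcases hcase i with h | h | h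
        · have h8 : j = j₀ := by
            rcases hcase j with h' | h' | h'
            · rw [h, h', hi] at hij; omega
            · exact h'
            · rw [h, h', hi] at hij; omega
          rw [h, h8]
          exact hxy
        · have h8 : j = i₀ := by
            rcases hcase j with h' | h' | h'
            · exact h'
            · rw [h, h', hj] at hij; omega
            · rw [h, h', hj] at hij; omega
          rw [h, h8, WW_swap]
          exact I.neg_mem hxy
        · have h8 : s j = 0 := by omega
          have h9 := I.add_mem (hkl j i h8 h) (I.smul_mem (pf ψ (pcol P j) (pcol P i)) hxy)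
          rw [sub_add_cancel] at h9
          exact (Submodule.smul_mem_iff _ hc0).mp h9
      · exact hdeg i j hij
    exact so_mem hpsi hu I (WW_all P I hall) A hA
  · have hpsi : ψ.transpose = -ψ := by rw [hsym, ho.neg_one_pow, neg_one_smul]
    refine sp_ideal hpsi hu I hI (fun A hA B hB => hid A hA B hB) ?_ A hA
    intro hbot
    have h1 := hTI _ (iso_XX hpsi (pcol P i₀))
    rw [bracket_XX_of hT, dg_col, hi, Int.cast_one, one_smul, hbot, Submodule.mem_bot] at h1
    refine col_ne P i₀ (pf_nondeg hu ?_)
    intro y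
    have h2 : BB ψ (pcol P i₀) (pcol P i₀) *ᵥ y = 0 := by rw [h1, zero_mulVec]
    rw [BB_mulVec, ← add_smul] at h2
    have h3 := (smul_eq_zero.mp h2).resolve_right (col_ne P i₀)
    have h4 : pf ψ y (pcol P i₀) = 0 := by
      have h5 : (2 : K) * pf ψ y (pcol P i₀) = 0 := by linear_combination h3
      exact (mul_eq_zero.mp h5).resolve_left two_ne_zero
    rw [pf_neg hpsi, h4, neg_zero]

end EM
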