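import Pool.Agent.Helper21.EM.Stmts
import Pool.Agent.Helper21.MT9.KIR

/-!
# EM, TWO2: irreducible Lie algebras of isometries in dimension two
-/

set_option autoImplicit false

open Matrix MT

namespace EM

namespace Two2

variable {K : Type} [Field K]

/-- the product of two matrices of trace zero -/
theorem mul_eq [CharZero K] (A B : Matrix (Fin 2) (Fin 2) K) (hA : A 0 0 + A 1 1 = 0)
    (hB : B 0 0 + B 1 1 = 0) :
    A * B = (2 : K)⁻¹ • (A * B - B * A) +
      ((2 : K)⁻¹ * ((A * B) 0 0 + (A * B) 1 1)) • (1 : Matrix (Fin 2) (Fin 2) K) := by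
  have ha : A 1 1 = -A 0 0 := by linear_combination hA
  have hb : B 1 1 = -B 0 0 := by linear_combination hB
  have h2 : (2 : K) ≠ 0 := two_ne_zero
  ext i j
  fin_cases i <;> fin_cases j <;>
    simp [Matrix.mul_apply, Fin.sum_univ_two, ha, hb] <;> field_simp <;> ring

theorem odd_case [CharZero K] [IsAlgClosed K] (ψ : Matrix (Fin 2) (Fin 2) K)
    (a : Submodule K (Matrix (Fin 2) (Fin 2) K)) (hdet : ψ.det ≠ 0) (hbrk : Brk a)
    (hirr : LIrr a) (hiso : ∀ A ∈ a, A.transpose * ψ + ψ * A = 0) (hpsi : ψ.transpose = -ψ)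
    (Y : Matrix (Fin 2) (Fin 2) K) (hY : Y.transpose * ψ + ψ * Y = 0) : Y ∈ a := by
  have h2 : (2 : K) ≠ 0 := two_ne_zero
  have h00 : ψ 0 0 = 0 := by
    have h := congrFun (congrFun hpsi 0) 0
    rw [transpose_apply, neg_apply] at h
    have h' : (2 : K) * ψ 0 0 = 0 := by linear_combination h
    exact (mul_eq_zero.mp h').resolve_left h2
  have h11 : ψ 1 1 = 0 := by
    have h := congrFun (congrFun hpsi 1) 1
    rw [transpose_apply, neg_apply] at h
    have h' : (2 : K) * ψ 1 1 = 0 := by linear_combination h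
    exact (mul_eq_zero.mp h').resolve_left h2
  have h01 : ψ 0 1 ≠ 0 := by
    intro h
    apply hdet
    rw [det_fin_two, h00, h]
    ring
  have htr : ∀ A : Matrix (Fin 2) (Fin 2) K, A.transpose * ψ + ψ * A = 0 →
      A 0 0 + A 1 1 = 0 := by
    intro A hA
    have h := congrFun (congrFun hA 0) 1
    rw [Matrix.add_apply, Matrix.mul_apply, Matrix.mul_apply, Fin.sum_univ_two,
      Fin.sum_univ_two, transpose_apply, transpose_apply, h00, h11, Matrix.zero_apply] at h
    have h' : ψ 0 1 * (A 0 0 + A 1 1) = 0 := by linear_combination h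
    exact (mul_eq_zero.mp h').resolve_left h01
  have hP := Kir.burnside (m := 2) le_rfl (a : Set (Matrix (Fin 2) (Fin 2) K)) hirr
    (fun Z => ∃ c : K, ∃ A ∈ a, Z = A + c • 1)
    ⟨0, 0, a.zero_mem, by rw [zero_smul, add_zero]⟩
    (by
      rintro _ _ ⟨c, A, hA, rfl⟩ ⟨d, B, hB, rfl⟩
      refine ⟨c + d, A + B, a.add_mem hA hB, ?_⟩
      rw [add_smul]
      abel)
    (by
      rintro t _ ⟨c, A, hA, rfl⟩
      refine ⟨t * c, t • A, a.smul_mem t hA, ?_⟩
      rw [smul_add, smul_smul])
    (by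
      rintro _ _ ⟨c, A, hA, rfl⟩ ⟨d, B, hB, rfl⟩
      refine ⟨(2 : K)⁻¹ * ((A * B) 0 0 + (A * B) 1 1) + c * d,
        (2 : K)⁻¹ • (A * B - B * A) + d • A + c • B,
        a.add_mem (a.add_mem (a.smul_mem _ (hbrk A hA B hB)) (a.smul_mem _ hA))
          (a.smul_mem _ hB), ?_⟩
      have h5 := mul_eq A B (htr A (hiso A hA)) (htr B (hiso B hB))
      rw [add_mul, mul_add, mul_add, mul_smul_comm, mul_one, smul_mul_assoc, one_mul,
        smul_mul_smul_comm, one_mul]
      conv_lhs => rw [h5]
      rw [add_smul]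
      abel)
    (by
      intro A hA
      exact ⟨0, A, hA, by rw [zero_smul, add_zero]⟩) Y
  obtain ⟨c, A, hA, hYA⟩ := hP
  have h3 := htr Y hY
  have h4 := htr A (hiso A hA)
  rw [hYA, Matrix.add_apply, Matrix.add_apply, Matrix.smul_apply, Matrix.smul_apply,
    Matrix.one_apply_eq, Matrix.one_apply_eq, smul_eq_mul, mul_one] at h3
  have h5 : (2 : K) * c = 0 := by linear_combination h3 - h4
  have h6 := (mul_eq_zero.mp h5).resolve_left h2
  rw [hYA, h6, zero_smul, add_zero]
  exact hA

end Two2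

theorem st_TWO2 : ST_TWO2 := by
  intro K _ _ _ w ψ a hIrs hsym
  obtain ⟨hdet, hbrk, hirr, hiso⟩ := hIrs
  have h2 : (2 : K) ≠ 0 := two_ne_zero
  have hw : Odd w := by
    by_contra hw
    have he := Nat.not_odd_iff_even.mp hw
    have hpsi : ψ.transpose = ψ := by rw [hsym, he.neg_one_pow, one_smul]
    have hdu : IsUnit ψ.det := isUnit_iff_ne_zero.mpr hdet
    set M : Matrix (Fin 2) (Fin 2) K := ψ⁻¹ * !![0, 1; -1, 0] with hM
    have hA : ∀ A ∈ a, ∃ t : K, A = t • M := by
      intro A hA
      have h1 := hiso A hA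
      have h3 : (ψ * A).transpose = -(ψ * A) := by
        rw [transpose_mul, hpsi]
        exact eq_neg_of_add_eq_zero_left h1
      refine ⟨(ψ * A) 0 1, ?_⟩
      have h4 : ψ * A = (ψ * A) 0 1 • !![0, 1; -1, 0] := by
        generalize ψ * A = B at h3
        have h5 : ∀ i j, B j i = -B i j := fun i j => congrFun (congrFun h3 i) j
        have h6 : ∀ i, B i i = 0 := by
          intro i
          have h7 : (2 : K) * B i i = 0 := by linear_combination h5 i i
          exact (mul_eq_zero.mp h7).resolve_left h2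
        ext i j
        fin_cases i <;> fin_cases j
        · simpa using h6 0
        · simp
        · simpa using h5 0 1
        · simpa using h6 1
      have h7 : A = ψ⁻¹ * (ψ * A) := by
        rw [← Matrix.mul_assoc, Matrix.nonsing_inv_mul ψ hdu, Matrix.one_mul]
      rw [hM, ← Matrix.mul_smul, ← h4, ← h7]
    obtain ⟨μ, hμ⟩ := Module.End.exists_eigenvalue (Matrix.toLin' M)
    obtain ⟨v, hv⟩ := hμ.exists_hasEigenvector
    have hv1 : M.mulVec v = μ • v := by
      have := hv.apply_eq_smul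
      rwa [Matrix.toLin'_apply] at this
    have hU := hirr (Submodule.span K {v}) (by
      intro A hAa x hx
      obtain ⟨t, rfl⟩ := hA A hAa
      obtain ⟨c, rfl⟩ := Submodule.mem_span_singleton.mp hx
      rw [mulVec_smul, smul_mulVec, hv1]
      exact Submodule.mem_span_singleton.mpr ⟨c * (t * μ), by rw [smul_smul, smul_smul, mul_assoc]⟩)
    rcases hU with hU | hU
    · exact hv.2 (Submodule.span_singleton_eq_bot.mp hU)
    · have h8 := finrank_span_singleton (K := K) hv.2
      rw [hU, finrank_top, Module.finrank_fin_fun] at h8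
      omega
  refine ⟨hw, ?_⟩
  have hpsi : ψ.transpose = -ψ := by rw [hsym, hw.neg_one_pow, neg_one_smul]
  exact Two2.odd_case ψ a hdet hbrk hirr hiso hpsi

end EM
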